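import Mathlib

set_option autoImplicit false

namespace Pool.Agent.Results.MP_633bfc_co.Compl

open Finset MvPolynomial

open Classical in
/-- edges with exactly one endpoint in `W`. -/
noncomputable def bd {V : Type} [Fintype V] (G : SimpleGraph V) (W : Finset V) :
    Finset (Sym2 V) :=
  {e | e ∈ G.edgeSet ∧ ∃ u v, e = s(u, v) ∧ u ∈ W ∧ v ∉ W}

open Classical in
/-- the bipartition polynomial in the variables `X 0 = x`, `X 1 = y`, `X 2 = z`. -/
noncomputable def bip {V : Type} [Fintype V] (G : SimpleGraph V) : MvPolynomial (Fin 3) ℤ :=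
  ∑ W : Finset V, X 0 ^ W.card * ∑ F ∈ (bd G W).powerset,
    X 1 ^ (univ.filter fun v => v ∉ W ∧ ∃ u ∈ W, s(u, v) ∈ F).card * X 2 ^ F.card

open Classical in
theorem inner {V : Type} [Fintype V] (G : SimpleGraph V) (W : Finset V) (y z : ℝ) :
    ∑ F ∈ (bd G W).powerset,
      y ^ (univ.filter fun v => v ∉ W ∧ ∃ u ∈ W, s(u, v) ∈ F).card * z ^ F.card =
    ∏ v ∈ Wᶜ, (1 - y + y * (1 + z) ^ (W.filter fun u => G.Adj u v).card) := by
  let E : V → Finset (Sym2 V) := fun v => (W.filter fun u => G.Adj u v).image fun u => s(u, v)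
  have hE : ∀ v, (E v).card = (W.filter fun u => G.Adj u v).card := fun v =>
    card_image_of_injective _ fun a b h => Sym2.congr_left.mp h
  have key : ∀ U : Finset V, U ⊆ Wᶜ → ∑ F ∈ (U.biUnion E).powerset,
      y ^ (U.filter fun v => ∃ u ∈ W, s(u, v) ∈ F).card * z ^ F.card =
      ∏ v ∈ U, (1 - y + y * (1 + z) ^ (E v).card) := by
    intro U
    induction U using Finset.induction_on with
    | empty => simp
    | insert a U ha ih =>
      intro hU
      have haW : a ∉ W := mem_compl.mp (hU (mem_insert_self _ _))
      have hU' : U ⊆ Wᶜ := (subset_insert _ _).trans hU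
      have d1 : ∀ u ∈ W, s(u, a) ∉ U.biUnion E := by
        intro u hu h
        simp only [E, mem_biUnion, mem_image, mem_filter, Sym2.eq_iff] at h
        obtain ⟨v, hv, w, hw, h | h⟩ := h
        · exact ha (h.2 ▸ hv)
        · exact haW (h.1 ▸ hw.1)
      have d2 : ∀ v ∈ U, ∀ u, s(u, v) ∉ E a := by
        intro v hv u h
        simp only [E, mem_image, mem_filter, Sym2.eq_iff] at h
        obtain ⟨w, hw, h | h⟩ := h
        · exact ha (h.2 ▸ hv)
        · exact mem_compl.mp (hU' hv) (h.1 ▸ hw.1)
      have hd : Disjoint (E a) (U.biUnion E) := by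
        rw [disjoint_left]
        intro e he he'
        obtain ⟨u, hu, rfl⟩ := mem_image.mp he
        exact d1 u (mem_filter.mp hu).1 he'
      have e1 : ∑ A ∈ (E a).powerset, (if A = ∅ then 1 else y) * z ^ A.card =
          1 - y + y * (1 + z) ^ (E a).card := by
        have h1 : (1 + z) ^ (E a).card = ∑ A ∈ (E a).powerset, z ^ A.card := by
          rw [← prod_const, prod_one_add]; simp
        rw [h1, mul_sum, ← sub_eq_iff_eq_add, ← sum_sub_distrib, sum_eq_single ∅]
        · simp
        · intro b _ hb; simp [hb]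
        · simp
      rw [prod_insert ha, ← ih hU', ← e1, sum_mul_sum, ← sum_product', biUnion_insert]
      symm
      refine sum_bij' (fun p _ => p.1 ∪ p.2) (fun F _ => (F ∩ E a, F ∩ U.biUnion E)) ?_ ?_ ?_ ?_ ?_
      · intro p hp
        simp only [mem_product, mem_powerset] at hp ⊢
        exact union_subset_union hp.1 hp.2
      · intro F _
        simp only [mem_product, mem_powerset]
        exact ⟨inter_subset_right, inter_subset_right⟩
      · intro p hp
        simp only [mem_product, mem_powerset] at hp
        refine Prod.ext ?_ ?_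
        · simp only [union_inter_distrib_right]
          rw [inter_eq_left.mpr hp.1, disjoint_iff_inter_eq_empty.mp (hd.symm.mono_left hp.2),
            union_empty]
        · simp only [union_inter_distrib_right]
          rw [inter_eq_left.mpr hp.2, disjoint_iff_inter_eq_empty.mp (hd.mono_left hp.1),
            empty_union]
      · intro F hF
        simp only
        rw [← inter_union_distrib_left, inter_eq_left.mpr (mem_powerset.mp hF)]
      · rintro ⟨A, B⟩ hp
        simp only [mem_product, mem_powerset] at hp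
        have f1 : (U.filter fun v => ∃ u ∈ W, s(u, v) ∈ A ∪ B) =
            U.filter fun v => ∃ u ∈ W, s(u, v) ∈ B := by
          refine filter_congr fun v hv => exists_congr fun u => and_congr_right fun _ => ?_
          rw [mem_union]
          exact or_iff_right fun h => d2 v hv u (hp.1 h)
        have f2 : (∃ u ∈ W, s(u, a) ∈ A ∪ B) ↔ ¬ A = ∅ := by
          constructor
          · rintro ⟨u, hu, h⟩ rfl
            exact d1 u hu (hp.2 (by simpa using h))
          · intro h
            obtain ⟨e, he⟩ := nonempty_iff_ne_empty.mpr h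
            obtain ⟨u, hu, rfl⟩ := mem_image.mp (hp.1 he)
            exact ⟨u, (mem_filter.mp hu).1, mem_union_left _ he⟩
        simp only
        rw [filter_insert, f1, card_union_of_disjoint (hd.mono hp.1 hp.2)]
        by_cases h : A = ∅
        · rw [if_pos h, if_neg (by rw [f2]; simpa using h)]; ring
        · rw [if_neg h, if_pos (f2.mpr h),
            card_insert_of_notMem fun h' => ha (mem_filter.mp h').1]
          ring
  have h1 : bd G W = Wᶜ.biUnion E := by
    ext e
    simp only [bd, E, mem_filter, mem_univ, true_and, mem_biUnion, mem_image, mem_compl]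
    constructor
    · rintro ⟨h, u, v, rfl, hu, hv⟩
      exact ⟨v, hv, u, ⟨hu, h⟩, rfl⟩
    · rintro ⟨v, hv, u, ⟨hu, h⟩, rfl⟩
      exact ⟨h, u, v, rfl, hu, hv⟩
  rw [h1]
  simp only [← hE]
  rw [← key _ subset_rfl]
  refine sum_congr rfl fun F _ => ?_
  congr 3
  ext v; simp

open Classical in
/-- number of neighbours inside `W`. -/
noncomputable def dg {V : Type} (G : SimpleGraph V) (W : Finset V) (v : V) : ℕ :=
  (W.filter fun u => G.Adj u v).card

open Classical in
/-- homogeneous layer. -/
noncomputable def lay {V : Type} [Fintype V] (G : SimpleGraph V) (k : ℕ) (a b t : ℝ) : ℝ :=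
  ∑ W ∈ powersetCard k (univ : Finset V), ∏ v ∈ Wᶜ, (a + b * t ^ dg G W v)

open Classical in
theorem ev {V : Type} [Fintype V] (G : SimpleGraph V) (x y t : ℝ) :
    aeval ![x, y, t - 1] (bip G) =
      ∑ W : Finset V, x ^ W.card *
        ∏ v ∈ Wᶜ, (1 - y + y * t ^ dg G W v) := by
  simp only [bip, map_sum, map_mul, map_pow, aeval_X]
  refine sum_congr rfl fun W _ => ?_
  have := inner G W y (t - 1)
  rw [add_sub_cancel] at this
  unfold dg
  rw [← this]; rfl

open Classical in
theorem coef {V : Type} [Fintype V] (g : Finset V → ℝ) (k : ℕ) :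
    (∑ W : Finset V, Polynomial.monomial W.card (g W)).coeff k =
      ∑ W ∈ powersetCard k (univ : Finset V), g W := by
  simp only [Polynomial.finsetSum_coeff, Polynomial.coeff_monomial]
  rw [← sum_filter]
  congr 1
  ext W; simp

open Classical in
theorem lay_compl {V : Type} [Fintype V] (G : SimpleGraph V) (k : ℕ) (y t : ℝ) (hy : 0 < y)
    (hy1 : y < 1) (ht : 0 < t) :
    lay G k (1 - y) y t = (1 - y + y * t ^ k) ^ (Fintype.card V - k) *
      lay Gᶜ k (1 - y * t ^ k / (1 - y + y * t ^ k)) (y * t ^ k / (1 - y + y * t ^ k)) t⁻¹ := by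
  have hp : 0 < 1 - y + y * t ^ k := by have := pow_pos ht k; nlinarith
  rw [lay, lay, mul_sum]
  refine sum_congr rfl fun W hW => ?_
  have hk := (mem_powersetCard.mp hW).2
  rw [← hk, ← card_compl, ← prod_const, ← prod_mul_distrib, hk]
  refine prod_congr rfl fun v hv => ?_
  have : dg G W v + dg Gᶜ W v = k := by
    rw [← hk, ← card_filter_add_card_filter_not (s := W) (fun u => G.Adj u v), dg, dg]
    congr 2
    ext u
    simp only [mem_filter, SimpleGraph.compl_adj]
    exact and_congr_right fun hu => and_iff_right fun e => mem_compl.mp hv (e ▸ hu)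
  rw [inv_pow]
  generalize dg G W v = i at *
  generalize dg Gᶜ W v = j at *
  subst this
  field_simp
  ring

theorem result {V W : Type} [Fintype V] [Fintype W] (G : SimpleGraph V) (H : SimpleGraph W)
    (h : bip Gᶜ = bip Hᶜ) : bip G = bip H := by
  classical
  have hn : Fintype.card V = Fintype.card W := by
    have := (ev Gᶜ 1 0 1).symm.trans ((congrArg _ h).trans (ev Hᶜ 1 0 1))
    simpa using this
  have h1 : ∀ k y t, lay Gᶜ k (1 - y) y t = lay Hᶜ k (1 - y) y t := by
    intro k y t
    rw [lay, lay, ← coef, ← coef]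
    congr 1
    refine Polynomial.funext fun x => ?_
    have := (ev Gᶜ x y t).symm.trans ((congrArg _ h).trans (ev Hᶜ x y t))
    simpa [Polynomial.eval_finsetSum, mul_comm] using this
  have h2 : ∀ {U : Type} [Fintype U] (K : SimpleGraph U) (x y t : ℝ),
      aeval ![x, y, t - 1] (bip K) =
        ∑ k ∈ range (Fintype.card U + 1), x ^ k * lay K k (1 - y) y t := by
    intro U _ K x y t
    rw [ev, ← powerset_univ, sum_powerset, card_univ]
    refine sum_congr rfl fun k _ => ?_
    rw [lay, mul_sum]
    exact sum_congr rfl fun A hA => by rw [(mem_powersetCard.mp hA).2]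
  apply map_injective (algebraMap ℤ ℝ) (RingHom.injective_int _)
  refine MvPolynomial.funext_set (fun _ => Set.Ioo 0 1) (fun _ => Set.Ioo_infinite one_pos) ?_
  intro p hp
  have e : p = ![p 0, p 1, (p 2 + 1) - 1] := by
    ext i; fin_cases i <;> simp
  have a1 := hp 1 trivial
  have a2 := hp 2 trivial
  rw [eval_map, eval_map, ← aeval_def, ← aeval_def, e, h2, h2, hn]
  refine sum_congr rfl fun k _ => ?_
  rw [lay_compl G k _ _ a1.1 a1.2 (by linarith [a2.1]),
    lay_compl H k _ _ a1.1 a1.2 (by linarith [a2.1]), h1, hn]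

end Pool.Agent.Results.MP_633bfc_co.Compl
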